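import Mathlib

/-!
# The order of approximation
-/

set_option autoImplicit false

namespace Pool.Agent.Helper44.PE

/-- `order a q = q (log q / log log q) ‖q a‖`, where `‖x‖ = |x - round x|` is the distance of `x` to the nearest
integer -/
noncomputable def order (a : ℝ) (q : ℕ) : ℝ :=
  q * (Real.log q / Real.log (Real.log q)) * |q * a - round (q * a)|

end Pool.Agent.Helper44.PE
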