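import Pool.Agent.Helper44.PE.Order

/-!
# The function `log x / log log x` along the denominators
-/

set_option autoImplicit false

open Filter Topology
open Pool.Agent.Helper65.PE

namespace Pool.Agent.Helper44.PE

/-- `log x / log log x` -/
noncomputable def ph (x : ℝ) : ℝ := Real.log x / Real.log (Real.log x)

theorem exp_one_le_log {x : ℝ} (hx : 16 ≤ x) : Real.exp 1 ≤ Real.log x := by
  have h1 : Real.log 16 = 4 * Real.log 2 := by
    rw [show (16 : ℝ) = 2 ^ 4 by norm_num, Real.log_pow]
    norm_num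
  have h2 := Real.log_two_gt_d9
  have h3 := Real.exp_one_lt_d9
  have h4 := Real.log_le_log (by norm_num) hx
  linarith

theorem div_log_mono {s t : ℝ} (hs : Real.exp 1 ≤ s) (hst : s ≤ t) :
    s / Real.log s ≤ t / Real.log t := by
  have hs0 : 0 < s := (Real.exp_pos 1).trans_le hs
  have ht0 : 0 < t := hs0.trans_le hst
  have h := Real.log_div_self_antitoneOn (a := s) (b := t) hs (hs.trans hst) hst
  have hls : 0 < Real.log s := by
    have := Real.log_le_log (Real.exp_pos 1) hs
    rw [Real.log_exp] at this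
    linarith
  have hlt : 0 < Real.log t := hls.trans_le (Real.log_le_log hs0 hst)
  rw [div_le_div_iff₀ hls hlt]
  rw [div_le_div_iff₀ ht0 hs0] at h
  linarith

theorem ph_mono {x y : ℝ} (hx : 16 ≤ x) (hxy : x ≤ y) : ph x ≤ ph y :=
  div_log_mono (exp_one_le_log hx) (Real.log_le_log (by linarith) hxy)

theorem ph_pos {x : ℝ} (hx : 16 ≤ x) : 0 < ph x := by
  have h := exp_one_le_log hx
  have h1 : 0 < Real.log (Real.log x) := by
    have := Real.log_le_log (Real.exp_pos 1) h
    rw [Real.log_exp] at this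
    linarith
  exact div_pos ((Real.exp_pos 1).trans_le h) h1

theorem tendsto_div_log : Tendsto (fun t : ℝ => t / Real.log t) atTop atTop := by
  have h := Real.isLittleO_log_id_atTop
  have h1 : Tendsto (fun t : ℝ => Real.log t / t) atTop (𝓝 0) := h.tendsto_div_nhds_zero
  have h2 : ∀ᶠ t : ℝ in atTop, 0 < Real.log t / t := by
    filter_upwards [eventually_gt_atTop 1] with t ht
    exact div_pos (Real.log_pos ht) (by linarith)
  have h3 := (tendsto_nhdsWithin_iff.2 ⟨h1, h2⟩).inv_tendsto_nhdsGT_zero
  refine h3.congr fun t => ?_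
  simp [inv_div]

theorem tendsto_ph : Tendsto ph atTop atTop := tendsto_div_log.comp Real.tendsto_log_atTop

theorem log_Q_lower {n : ℕ} (hn : 1 ≤ n) : (n : ℝ) * Real.log n - n ≤ Real.log (Q n) := by
  have hn' : (0 : ℝ) < n := by exact_mod_cast hn
  have h1 := Real.pow_div_factorial_le_exp (n : ℝ) hn'.le n
  have hf : (0 : ℝ) < n.factorial := by exact_mod_cast Nat.factorial_pos n
  have h2 : (n.factorial : ℝ) ≤ Q n := by exact_mod_cast factorial_le_Q n
  rw [div_le_iff₀ hf] at h1
  have h3 := Real.log_le_log (by positivity) h1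
  rw [Real.log_mul (Real.exp_pos _).ne' hf.ne', Real.log_exp, Real.log_pow] at h3
  have h4 := Real.log_le_log hf h2
  linarith

theorem log_Q_upper {n : ℕ} (hn : 1 ≤ n) : Real.log (Q n) ≤ (n : ℝ) * (Real.log 7 + Real.log n) := by
  have hn' : (0 : ℝ) < n := by exact_mod_cast hn
  have h1 : (Q n : ℝ) ≤ (7 * n) ^ n := by
    have h2 : Q n ≤ (7 * n) ^ n := (Q_le_pow n).trans (Nat.pow_le_pow_left (by omega) n)
    exact_mod_cast h2
  have h3 := Real.log_le_log (Q_pos' n) h1
  rw [Real.log_pow, Real.log_mul (by norm_num) hn'.ne'] at h3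
  exact h3

theorem tendsto_logn : Tendsto (fun n : ℕ => Real.log (n : ℝ)) atTop atTop :=
  Real.tendsto_log_atTop.comp tendsto_natCast_atTop_atTop

/-- `log (c Q_n)` is asymptotic to `n log n` -/
theorem tendsto_log_cQ {c : ℝ} (hc : 0 < c) :
    Tendsto (fun n : ℕ => Real.log (c * Q n) / (n * Real.log n)) atTop (𝓝 1) := by
  have h0 : Tendsto (fun n : ℕ => Real.log (c) / ((n : ℝ) * Real.log n)) atTop (𝓝 0) :=
    tendsto_const_nhds.div_atTop (tendsto_natCast_atTop_atTop.atTop_mul_atTop₀ tendsto_logn)
  have h1 : Tendsto (fun n : ℕ => (1 : ℝ) / Real.log n) atTop (𝓝 0) :=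
    tendsto_const_nhds.div_atTop tendsto_logn
  have h7 : Tendsto (fun n : ℕ => Real.log 7 / Real.log n) atTop (𝓝 0) :=
    tendsto_const_nhds.div_atTop tendsto_logn
  have hL := (h1.const_sub 1).add h0
  have hU := (h7.const_add 1).add h0
  simp only [sub_zero, add_zero] at hL hU
  refine tendsto_of_tendsto_of_tendsto_of_le_of_le' hL hU ?_ ?_
  · filter_upwards [eventually_ge_atTop 2] with n hn
    have hn1 : (1 : ℝ) < n := by exact_mod_cast hn
    have hl : 0 < Real.log n := Real.log_pos hn1
    have hn0 : (0 : ℝ) < n := by linarith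
    rw [Real.log_mul hc.ne' (Q_pos' n).ne']
    have h := log_Q_lower (n := n) (by omega)
    have e : 1 - 1 / Real.log n + Real.log c / (n * Real.log n) =
        (n * Real.log n - n + Real.log c) / (n * Real.log n) := by
      field_simp
    rw [e]
    exact div_le_div_of_nonneg_right (by linarith) (mul_pos hn0 hl).le
  · filter_upwards [eventually_ge_atTop 2] with n hn
    have hn1 : (1 : ℝ) < n := by exact_mod_cast hn
    have hl : 0 < Real.log n := Real.log_pos hn1
    have hn0 : (0 : ℝ) < n := by linarith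
    rw [Real.log_mul hc.ne' (Q_pos' n).ne']
    have h := log_Q_upper (n := n) (by omega)
    have e : 1 + Real.log 7 / Real.log n + Real.log c / (n * Real.log n) =
        (n * (Real.log 7 + Real.log n) + Real.log c) / (n * Real.log n) := by
      field_simp
      ring
    rw [e]
    exact div_le_div_of_nonneg_right (by linarith) (mul_pos hn0 hl).le

/-- `log log (c Q_n)` is asymptotic to `log n` -/
theorem tendsto_loglog_cQ {c : ℝ} (hc : 0 < c) :
    Tendsto (fun n : ℕ => Real.log (Real.log (c * Q n)) / Real.log n) atTop (𝓝 1) := by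
  have h1 := tendsto_log_cQ hc
  have h2 : Tendsto (fun n : ℕ => Real.log (Real.log (c * Q n) / (n * Real.log n))) atTop (𝓝 0) := by
    have := (Real.continuousAt_log (one_ne_zero)).tendsto.comp h1
    rwa [Real.log_one] at this
  have h3 : Tendsto (fun n : ℕ => Real.log (Real.log (c * Q n) / (n * Real.log n)) / Real.log n)
      atTop (𝓝 0) := h2.div_atTop tendsto_logn
  have h4 : Tendsto (fun n : ℕ => Real.log (Real.log n) / Real.log n) atTop (𝓝 0) :=
    (Real.isLittleO_log_id_atTop.tendsto_div_nhds_zero).comp tendsto_logn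
  have h5 := (h4.const_add 1).add h3
  simp only [add_zero] at h5
  refine h5.congr' ?_
  filter_upwards [eventually_ge_atTop 2, h1.eventually (lt_mem_nhds (zero_lt_one))] with n hn hpos
  have hn1 : (1 : ℝ) < n := by exact_mod_cast hn
  have hl : 0 < Real.log n := Real.log_pos hn1
  have hn0 : (0 : ℝ) < n := by linarith
  have hnl : 0 < (n : ℝ) * Real.log n := mul_pos hn0 hl
  have e : Real.log (c * Q n) = (n * Real.log n) * (Real.log (c * Q n) / (n * Real.log n)) := by
    field_simp
  conv_rhs => rw [e]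
  rw [Real.log_mul hnl.ne' hpos.ne', Real.log_mul hn0.ne' hl.ne']
  field_simp

/-- `log (c Q_n) / log log (c Q_n)` is asymptotic to `n` -/
theorem tendsto_ph_cQ {c : ℝ} (hc : 0 < c) :
    Tendsto (fun n : ℕ => ph (c * Q n) / n) atTop (𝓝 1) := by
  have h := (tendsto_log_cQ hc).div (tendsto_loglog_cQ hc) one_ne_zero
  rw [div_one] at h
  refine h.congr' ?_
  filter_upwards [eventually_ge_atTop 2] with n hn
  have hn1 : (1 : ℝ) < n := by exact_mod_cast hn
  have hl : 0 < Real.log n := Real.log_pos hn1
  have hn0 : (0 : ℝ) < n := by linarith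
  unfold ph
  rw [Pi.div_apply, div_div_div_eq, div_div]
  rw [show (n : ℝ) * Real.log n * Real.log (Real.log (c * Q n)) =
    Real.log n * (Real.log (Real.log (c * Q n)) * n) by ring, mul_comm (Real.log (c * Q n)) (Real.log n),
    mul_div_mul_left _ _ hl.ne']

/-- `n`-th good approximation: `Q_n |Q_n e - P_n| log (c Q_n) / log log (c Q_n)` tends to `1/2` -/
theorem tendsto_key {c : ℝ} (hc : 0 < c) :
    Tendsto (fun n : ℕ => Q n * ep n * ph (c * Q n)) atTop (𝓝 (1 / 2)) := by
  have h := tendsto_nQep.mul (tendsto_ph_cQ hc)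
  rw [mul_one] at h
  refine h.congr' ?_
  filter_upwards [eventually_gt_atTop 0] with n hn
  have hn' : (n : ℝ) ≠ 0 := by exact_mod_cast hn.ne'
  field_simp

end Pool.Agent.Helper44.PE
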