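import Pool.Agent.Helper44.PE.Def
import Pool.Agent.Helper44.PE.Phi

/-!
# The limit inferior for the numbers `(u e + v) / w`
-/

set_option autoImplicit false

open Filter Topology
open Pool.Agent.Helper65.PE

namespace Pool.Agent.Helper44.PE

/-- `L` is the limit inferior of the sequence `f` -/
def IsLiminf (f : ℕ → ℝ) (L : ℝ) : Prop :=
  ∀ ε : ℝ, 0 < ε → (∀ᶠ q in atTop, L - ε < f q) ∧ ∃ᶠ q in atTop, f q < L + ε

/-- `m Q_n / |u|` is an integer `q` such that `q a` is close to an integer -/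
def Adm (u v : ℤ) (w m n : ℕ) : Prop :=
  ∃ q : ℕ, ∃ N : ℤ, u.natAbs * q = m * Q n ∧ (w : ℤ) * N = v * q + u.sign * m * P n

theorem adm_all (u v : ℤ) (w n : ℕ) : Adm u v w (u.natAbs * w) n := by
  refine ⟨w * Q n, v * Q n + u * P n, by ring, ?_⟩
  have h : u.sign * (u.natAbs : ℤ) = u := Int.sign_mul_natAbs u
  push_cast
  have h2 : u.sign * ((u.natAbs : ℤ) * w) * P n = u * w * P n := by
    rw [show u.sign * ((u.natAbs : ℤ) * w) * P n = (u.sign * (u.natAbs : ℤ)) * w * P n by ring, h]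
  rw [Int.natCast_natAbs] at h2
  rw [h2]
  ring

/-- the distance of an admissible `q a` -/
theorem adm_dist {a : ℝ} {u v N : ℤ} {w m n q : ℕ} (hu : u ≠ 0) (hw : 0 < w)
    (h : (w : ℝ) * a = u * Real.exp 1 + v) (h1 : u.natAbs * q = m * Q n)
    (h2 : (w : ℤ) * N = v * q + u.sign * m * P n) :
    |(q : ℝ) * a - N| = m * ep n / w := by
  have hw' : (0 : ℝ) < w := by exact_mod_cast hw
  have h1' : (u.natAbs : ℝ) * q = m * Q n := by exact_mod_cast h1
  have h2' : (w : ℝ) * N = v * q + u.sign * m * P n := by exact_mod_cast h2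
  have hs : (u : ℝ) = u.sign * (u.natAbs : ℝ) := by
    rw [Nat.cast_natAbs]
    exact_mod_cast (Int.sign_mul_natAbs u).symm
  have hsa : |((u.sign : ℤ) : ℝ)| = 1 := by
    rcases lt_trichotomy u 0 with h0 | h0 | h0
    · rw [Int.sign_eq_neg_one_of_neg h0]
      simp
    · exact absurd h0 hu
    · rw [Int.sign_eq_one_of_pos h0]
      simp
  have e : (w : ℝ) * (q * a - N) = u.sign * (m * ((Q n : ℝ) * Real.exp 1 - P n)) := by
    have e1 : (w : ℝ) * (q * a - N) = q * (w * a) - w * N := by ring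
    rw [e1, h, h2', hs]
    linear_combination ((u.sign : ℤ) : ℝ) * Real.exp 1 * h1'
  have e2 : (w : ℝ) * |(q : ℝ) * a - N| = m * ep n := by
    rw [← abs_of_pos hw', ← abs_mul, e, abs_mul, hsa, abs_mul, abs_Qe, abs_of_nonneg (Nat.cast_nonneg m),
      one_mul]
  rw [eq_div_iff hw'.ne']
  linarith

/-- **the limit inferior** -/
theorem main (a : ℝ) (u v : ℤ) (w : ℕ) (hu : u ≠ 0) (hw : 0 < w)
    (h : (w : ℝ) * a = u * Real.exp 1 + v) :
    ∃ m : ℕ, 1 ≤ m ∧ m ≤ u.natAbs * w ∧
      IsLiminf (order a) ((m : ℝ) ^ 2 / (2 * (u.natAbs * w))) := by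
  classical
  have hU : 0 < u.natAbs := Int.natAbs_pos.2 hu
  have hU' : (0 : ℝ) < (u.natAbs : ℝ) := by exact_mod_cast hU
  have hw' : (0 : ℝ) < w := by exact_mod_cast hw
  have hUw : (0 : ℝ) < (u.natAbs : ℝ) * w := mul_pos hU' hw'
  -- the least multiplier that is admissible infinitely often
  have hex : ∃ m : ℕ, 1 ≤ m ∧ ∃ᶠ n in atTop, Adm u v w m n :=
    ⟨u.natAbs * w, Nat.mul_pos hU hw, Frequently.of_forall fun n => adm_all u v w n⟩
  set m := Nat.find hex with hm
  obtain ⟨hm1, hmf⟩ := Nat.find_spec hex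
  have hmle : m ≤ u.natAbs * w := Nat.find_min' hex
    ⟨Nat.mul_pos hU hw, Frequently.of_forall fun n => adm_all u v w n⟩
  have hmin : ∀ᶠ n in atTop, ∀ k ∈ Finset.range m, 1 ≤ k → ¬ Adm u v w k n := by
    rw [Filter.eventually_all_finset]
    intro k hk
    by_cases hk1 : 1 ≤ k
    · have := Nat.find_min hex (Finset.mem_range.1 hk)
      have h3 : ¬ ∃ᶠ n in atTop, Adm u v w k n := fun hf => this ⟨hk1, hf⟩
      rw [not_frequently] at h3
      filter_upwards [h3] with n hn _
      exact hn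
    · exact Eventually.of_forall fun n hk2 => absurd hk2 hk1
  refine ⟨m, hm1, hmle, fun ε hε => ⟨?_, ?_⟩⟩
  · -- lower bound
    have ht : Tendsto (fun n : ℕ => (m : ℝ) ^ 2 / (u.natAbs * w) *
        (Q n * ep n * ph ((u.natAbs : ℝ)⁻¹ * Q n))) atTop
        (𝓝 ((m : ℝ) ^ 2 / (u.natAbs * w) * (1 / 2))) :=
      (tendsto_key (inv_pos.2 hU')).const_mul _
    have e0 : (m : ℝ) ^ 2 / (u.natAbs * w) * (1 / 2) = (m : ℝ) ^ 2 / (2 * (u.natAbs * w)) := by
      rw [div_mul_div_comm, mul_one, mul_comm (2 : ℝ)]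
    rw [e0] at ht
    have hQ : Tendsto (fun n : ℕ => (u.natAbs : ℝ)⁻¹ * (Q n : ℝ)) atTop atTop := by
      refine Tendsto.const_mul_atTop (inv_pos.2 hU') ?_
      exact tendsto_natCast_atTop_atTop.comp (tendsto_atTop_mono le_Q tendsto_id)
    obtain ⟨n1, hn1⟩ := eventually_atTop.1 (hmin.and
      ((ht.eventually (lt_mem_nhds (sub_lt_self _ hε))).and (hQ.eventually_ge_atTop 16)))
    have hE1 : ∀ᶠ q : ℕ in atTop, (m : ℝ) ^ 2 / (2 * (u.natAbs * w)) * (8 * (u.natAbs * w)) < ph q :=
      (tendsto_ph.comp tendsto_natCast_atTop_atTop).eventually_gt_atTop _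
    filter_upwards [hE1, eventually_ge_atTop (Q n1), eventually_ge_atTop 16] with q hq1 hq2 hq3
    have hq3' : (16 : ℝ) ≤ q := by exact_mod_cast hq3
    have hq0 : (0 : ℝ) < q := by linarith
    have hphq := ph_pos hq3'
    set N : ℤ := round ((q : ℝ) * a) with hN
    set A : ℤ := u * q with hA
    set B : ℤ := w * N - v * q with hB
    have hA0 : A ≠ 0 := by
      rw [hA]
      exact mul_ne_zero hu (by exact_mod_cast (by omega : q ≠ 0))
    have e1 : (A : ℝ) * Real.exp 1 - B = w * (q * a - N) := by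
      rw [hA, hB]
      push_cast
      linear_combination (-(q : ℝ)) * h
    have e2 : |(A : ℝ)| = u.natAbs * q := by
      rw [hA]
      push_cast
      rw [abs_mul, abs_of_pos hq0, Nat.cast_natAbs, Int.cast_abs]
    have e3 : |(A : ℝ)| * |(A : ℝ) * Real.exp 1 - B| = (u.natAbs * w) * (q * |(q : ℝ) * a - N|) := by
      rw [e1, e2, abs_mul, abs_of_pos hw']
      ring
    have e4 : order a q = ph q * (q * |(q : ℝ) * a - N|) := by
      unfold order ph
      ring
    rw [e4]
    by_cases hbig : 1 / 8 ≤ |(A : ℝ)| * |(A : ℝ) * Real.exp 1 - B|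
    · rw [e3] at hbig
      have h5 : 1 / (8 * (u.natAbs * w)) ≤ q * |(q : ℝ) * a - N| := by
        rw [div_le_iff₀ (by positivity)]
        linarith
      have h6 : (m : ℝ) ^ 2 / (2 * (u.natAbs * w)) < ph q * (1 / (8 * (u.natAbs * w))) := by
        rw [mul_one_div, lt_div_iff₀ (by positivity)]
        exact hq1
      have h7 := mul_le_mul_of_nonneg_left h5 hphq.le
      linarith
    · rw [not_le] at hbig
      obtain ⟨n, k, hAk, hBk, hAn⟩ := classify hA0 hbig
      have hn : n1 ≤ n := by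
        by_contra hlt
        rw [not_le] at hlt
        have h8 : Q (n + 1) ≤ Q n1 := Q_mono (by omega)
        have h9 : (Q (n + 1) : ℝ) ≤ q := by exact_mod_cast h8.trans hq2
        have h10 : (1 : ℝ) ≤ u.natAbs := by exact_mod_cast hU
        rw [e2] at hAn
        nlinarith
      obtain ⟨hna, hnb, hnc⟩ := hn1 n hn
      -- the multiplier
      have hk0 : k ≠ 0 := by
        intro hk
        rw [hk, zero_mul] at hAk
        exact hA0 hAk
      have hQn : (0 : ℤ) < Q n := by exact_mod_cast Q_pos n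
      have hqz : (0 : ℤ) < q := by exact_mod_cast (by omega : 0 < q)
      have hsgn : k.sign = u.sign := by
        have h11 : (k * Q n).sign = (u * q).sign := by rw [← hAk, hA]
        rw [Int.sign_mul, Int.sign_mul, Int.sign_eq_one_of_pos hQn, Int.sign_eq_one_of_pos hqz, mul_one,
          mul_one] at h11
        exact h11
      have hk1 : 1 ≤ k.natAbs := Int.natAbs_pos.2 hk0
      have ha1 : u.natAbs * q = k.natAbs * Q n := by
        have h12 : (u * q).natAbs = (k * Q n).natAbs := by rw [← hAk, hA]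
        rwa [Int.natAbs_mul, Int.natAbs_mul, Int.natAbs_natCast, Int.natAbs_natCast] at h12
      have ha2 : (w : ℤ) * N = v * q + u.sign * k.natAbs * P n := by
        rw [← hsgn, Int.sign_mul_natAbs, ← hBk, hB]
        ring
      have hmk : m ≤ k.natAbs := by
        by_contra hlt
        rw [not_le] at hlt
        exact hna k.natAbs (Finset.mem_range.2 hlt) hk1 ⟨q, N, ha1, ha2⟩
      rw [adm_dist hu hw h ha1 ha2]
      have ha1' : (u.natAbs : ℝ) * q = k.natAbs * Q n := by exact_mod_cast ha1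
      have hmk' : (m : ℝ) ≤ k.natAbs := by exact_mod_cast hmk
      have hk1' : (1 : ℝ) ≤ k.natAbs := by exact_mod_cast hk1
      have e5 : (q : ℝ) = k.natAbs * Q n / u.natAbs := by
        rw [eq_div_iff hU'.ne']
        linarith
      have h13 : (u.natAbs : ℝ)⁻¹ * Q n ≤ q := by
        rw [e5, inv_mul_eq_div]
        gcongr
        have := Q_pos' n
        nlinarith
      have h14 := ph_mono hnc h13
      have h15 := ph_pos hnc
      have h16 : (m : ℝ) ^ 2 ≤ (k.natAbs : ℝ) ^ 2 := pow_le_pow_left₀ (Nat.cast_nonneg _) hmk' 2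
      have hQe : 0 < (Q n : ℝ) * ep n := mul_pos (Q_pos' n) (ep_pos n)
      calc (m : ℝ) ^ 2 / (2 * (u.natAbs * w)) - ε
          < (m : ℝ) ^ 2 / (u.natAbs * w) * (Q n * ep n * ph ((u.natAbs : ℝ)⁻¹ * Q n)) := hnb
        _ ≤ (k.natAbs : ℝ) ^ 2 / (u.natAbs * w) * (Q n * ep n * ph q) := by
          gcongr
        _ = ph q * (q * (k.natAbs * ep n / w)) := by
          have e6 : (q : ℝ) * (k.natAbs * ep n / w) =
              (k.natAbs : ℝ) ^ 2 / (u.natAbs * w) * (Q n * ep n) := by
            rw [e5]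
            field_simp
          rw [e6]
          ring
  · -- upper bound
    have hc : (0 : ℝ) < (m : ℝ) * (u.natAbs : ℝ)⁻¹ :=
      mul_pos (by exact_mod_cast hm1) (inv_pos.2 hU')
    have ht : Tendsto (fun n : ℕ => (m : ℝ) ^ 2 / (u.natAbs * w) *
        (Q n * ep n * ph ((m : ℝ) * (u.natAbs : ℝ)⁻¹ * Q n))) atTop
        (𝓝 ((m : ℝ) ^ 2 / (u.natAbs * w) * (1 / 2))) :=
      (tendsto_key hc).const_mul _
    have e0 : (m : ℝ) ^ 2 / (u.natAbs * w) * (1 / 2) = (m : ℝ) ^ 2 / (2 * (u.natAbs * w)) := by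
      rw [div_mul_div_comm, mul_one, mul_comm (2 : ℝ)]
    rw [e0] at ht
    rw [frequently_atTop]
    intro K
    have hev := (ht.eventually (gt_mem_nhds (lt_add_of_pos_right _ hε))).and
      (eventually_ge_atTop (u.natAbs * (K + 16)))
    obtain ⟨n, ⟨q, N, ha1, ha2⟩, hn1, hn2⟩ := (hmf.and_eventually hev).exists
    have ha1' : (u.natAbs : ℝ) * q = m * Q n := by exact_mod_cast ha1
    have hq : K + 16 ≤ q := by
      have h1 : u.natAbs * (K + 16) ≤ u.natAbs * q := by
        rw [ha1]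
        calc u.natAbs * (K + 16) ≤ n := hn2
          _ ≤ Q n := le_Q n
          _ ≤ m * Q n := Nat.le_mul_of_pos_left _ hm1
      exact Nat.le_of_mul_le_mul_left h1 hU
    refine ⟨q, by omega, ?_⟩
    have hq16 : (16 : ℝ) ≤ q := by exact_mod_cast (by omega : 16 ≤ q)
    have hphq := ph_pos hq16
    have hq0 : (0 : ℝ) < q := by linarith
    have h5 : |(q : ℝ) * a - round ((q : ℝ) * a)| ≤ m * ep n / w := by
      rw [← adm_dist hu hw h ha1 ha2]
      exact round_le _ _
    have e5 : (q : ℝ) = m * (u.natAbs : ℝ)⁻¹ * Q n := by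
      field_simp
      linarith
    have e4 : order a q = ph q * (q * |(q : ℝ) * a - round ((q : ℝ) * a)|) := by
      unfold order ph
      ring
    rw [e4]
    calc ph q * (q * |(q : ℝ) * a - round ((q : ℝ) * a)|) ≤ ph q * (q * (m * ep n / w)) := by
          gcongr
      _ = (m : ℝ) ^ 2 / (u.natAbs * w) * (Q n * ep n * ph q) := by
        have e6 : (q : ℝ) * (m * ep n / w) = (m : ℝ) ^ 2 / (u.natAbs * w) * (Q n * ep n) := by
          rw [e5]
          field_simp
        rw [e6]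
        ring
      _ < (m : ℝ) ^ 2 / (2 * (u.natAbs * w)) + ε := by
        rw [e5]
        exact hn1

end Pool.Agent.Helper44.PE
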