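import Pool.Agent.Helper65.PE.Crit

/-!
# The exact order of approximation of the numbers `x e + y`
-/

set_option autoImplicit false

open Filter Topology
open Pool.Agent.Helper65.PE

namespace Pool.Agent.Helper44.PE

/-! ### integers -/

theorem det_eq : ∀ n : ℕ, (P (n + 1) : ℤ) * Q n - P n * Q (n + 1) = 2 * (-1) ^ n
  | 0 => by simp [P, Q]
  | n + 1 => by
    have h := det_eq n
    rw [show n + 1 + 1 = n + 2 from rfl, P_succ, Q_succ, pow_succ]
    push_cast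
    linear_combination (-1 : ℤ) * h

theorem Q_odd : ∀ n : ℕ, Q n % 2 = 1
  | 0 => by simp [Q]
  | 1 => by simp [Q]
  | n + 2 => by
    have h := Q_odd n
    rw [Q_succ, show (4 * n + 6) * Q (n + 1) = 2 * ((2 * n + 3) * Q (n + 1)) by ring]
    omega

theorem coprime (n : ℕ) : IsCoprime (P n : ℤ) (Q n) := by
  have h := det_eq n
  have h2 : (Q n : ℤ) = 2 * (Q n / 2 : ℕ) + 1 := by
    have := Q_odd n
    have h3 : Q n = 2 * (Q n / 2) + 1 := by omega
    exact_mod_cast h3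
  set k : ℤ := ((Q n / 2 : ℕ) : ℤ) with hk
  have hs : ((-1 : ℤ) ^ n) * (-1) ^ n = 1 := by
    rw [← mul_pow]
    simp
  refine ⟨(-1) ^ n * k * Q (n + 1), 1 - (-1) ^ n * k * P (n + 1), ?_⟩
  linear_combination (-(-1) ^ n * k) * h - 2 * k * hs + h2

theorem Q_le_succ : ∀ n : ℕ, Q n ≤ Q (n + 1)
  | 0 => by simp [Q]
  | n + 1 => by
    rw [show n + 1 + 1 = n + 2 from rfl, Q_succ]
    nlinarith [Q_pos (n + 1)]

theorem Q_mono : Monotone Q := monotone_nat_of_le_succ Q_le_succ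

theorem Q_le_pow : ∀ n : ℕ, Q n ≤ (4 * n + 3) ^ n
  | 0 => by simp [Q]
  | 1 => by simp [Q]
  | n + 2 => by
    have h := Q_le_pow (n + 1)
    have h1 := Q_le_succ n
    rw [Q_succ]
    calc (4 * n + 6) * Q (n + 1) + Q n ≤ (4 * n + 7) * Q (n + 1) := by nlinarith
      _ ≤ (4 * n + 7) * (4 * (n + 1) + 3) ^ (n + 1) := Nat.mul_le_mul_left _ h
      _ ≤ (4 * (n + 2) + 3) * (4 * (n + 2) + 3) ^ (n + 1) :=
        Nat.mul_le_mul (by omega) (Nat.pow_le_pow_left (by omega) _)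
      _ = _ := by rw [pow_succ (4 * (n + 2) + 3) (n + 1)]; ring

/-! ### errors -/

/-- the error of Hermite's approximation -/
noncomputable def ep (n : ℕ) : ℝ := J n / n.factorial

theorem ep_pos (n : ℕ) : 0 < ep n :=
  div_pos (J_pos n) (by exact_mod_cast Nat.factorial_pos n)

theorem Qe (n : ℕ) : (Q n : ℝ) * Real.exp 1 - P n = (-1) ^ n * ep n := hermite n

theorem abs_Qe (n : ℕ) : |(Q n : ℝ) * Real.exp 1 - P n| = ep n := by
  rw [Qe, abs_mul, abs_pow, abs_neg, abs_one, one_pow, one_mul, abs_of_pos (ep_pos n)]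

theorem ep_det (n : ℕ) : (Q (n + 1) : ℝ) * ep n + Q n * ep (n + 1) = 2 := by
  have h1 := Qe n
  have h2 := Qe (n + 1)
  have h3 : ((P (n + 1) : ℝ)) * Q n - P n * Q (n + 1) = 2 * (-1) ^ n := by
    exact_mod_cast det_eq n
  have hs : ((-1 : ℝ) ^ n) * (-1) ^ n = 1 := by
    rw [← mul_pow]
    simp
  rw [pow_succ] at h2
  have h4 : (-1 : ℝ) ^ n * ((Q (n + 1) : ℝ) * ep n + Q n * ep (n + 1)) = 2 * (-1) ^ n := by
    linear_combination (-(Q (n + 1) : ℝ)) * h1 + (Q n : ℝ) * h2 + h3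
  have h5 : (-1 : ℝ) ^ n ≠ 0 := by positivity
  have h6 : (-1 : ℝ) ^ n * ((Q (n + 1) : ℝ) * ep n + Q n * ep (n + 1) - 2) = 0 := by linarith
  rcases mul_eq_zero.1 h6 with h | h
  · exact absurd h h5
  · linarith

theorem Q_pos' (n : ℕ) : (0 : ℝ) < Q n := by exact_mod_cast Q_pos n

theorem Q_ep_lt (n : ℕ) : (Q (n + 1) : ℝ) * ep n < 2 := by
  have h := ep_det n
  have := mul_pos (Q_pos' n) (ep_pos (n + 1))
  linarith

theorem Q_ep_small (n : ℕ) : (Q n : ℝ) * ep (n + 1) ≤ 2 / (4 * n + 6) := by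
  have h := Q_ep_lt (n + 1)
  have h1 : (4 * (n : ℝ) + 6) * Q n ≤ Q (n + 1 + 1) := by
    have h2 : (4 * n + 6) * Q n ≤ Q (n + 1 + 1) := by
      rw [show n + 1 + 1 = n + 2 from rfl, Q_succ]
      have := Nat.mul_le_mul_left (4 * n + 6) (Q_le_succ n)
      omega
    exact_mod_cast h2
  have h3 : (0 : ℝ) < 4 * n + 6 := by positivity
  rw [le_div_iff₀ h3]
  have h4 := mul_le_mul_of_nonneg_right h1 (ep_pos (n + 1)).le
  nlinarith

theorem tendsto_Qep : Tendsto (fun n => (Q (n + 1) : ℝ) * ep n) atTop (𝓝 2) := by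
  have h0 : Tendsto (fun n : ℕ => (2 : ℝ) / (4 * n + 6)) atTop (𝓝 0) := by
    refine tendsto_const_nhds.div_atTop ?_
    refine tendsto_atTop_add_const_right _ _ ?_
    exact tendsto_natCast_atTop_atTop.const_mul_atTop (by norm_num)
  have h1 : Tendsto (fun n => (Q n : ℝ) * ep (n + 1)) atTop (𝓝 0) :=
    squeeze_zero (fun n => (mul_pos (Q_pos' n) (ep_pos (n + 1))).le) Q_ep_small h0
  have h2 := h1.const_sub 2
  rw [sub_zero] at h2
  refine h2.congr fun n => ?_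
  linarith [ep_det n]

/-- `n Q_n |Q_n e - P_n|` tends to one half -/
theorem tendsto_nQep : Tendsto (fun n : ℕ => (n : ℝ) * (Q n * ep n)) atTop (𝓝 (1 / 2)) := by
  rw [← tendsto_add_atTop_iff_nat 1]
  have h4 : ∀ c : ℝ, Tendsto (fun n : ℕ => ((n : ℝ) + 1) / (4 * n + c)) atTop (𝓝 (1 / 4)) := by
    intro c
    have h5 : Tendsto (fun n : ℕ => (1 + 1 * (n : ℝ)⁻¹) / (4 + c * (n : ℝ)⁻¹)) atTop
        (𝓝 ((1 + 1 * 0) / (4 + c * 0))) := by
      have hi : Tendsto (fun n : ℕ => ((n : ℝ))⁻¹) atTop (𝓝 0) := tendsto_inv_atTop_nhds_zero_nat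
      exact ((hi.const_mul 1).const_add 1).div ((hi.const_mul c).const_add 4) (by norm_num)
    have e : ((1 : ℝ) + 1 * 0) / (4 + c * 0) = 1 / 4 := by norm_num
    rw [e] at h5
    refine h5.congr' ?_
    filter_upwards [eventually_gt_atTop 0] with n hn
    have hn' : (n : ℝ) ≠ 0 := by exact_mod_cast hn.ne'
    have e1 : (4 : ℝ) + c * (n : ℝ)⁻¹ = (4 * n + c) / n := by field_simp
    have e2 : (1 : ℝ) + 1 * (n : ℝ)⁻¹ = (n + 1) / n := by field_simp
    rw [e1, e2, div_div_div_cancel_right₀ hn']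
  have hb : ∀ n : ℕ, (4 * (n : ℝ) + 6) * Q (n + 1) ≤ Q (n + 2) ∧
      (Q (n + 2) : ℝ) ≤ (4 * n + 7) * Q (n + 1) := by
    intro n
    have h1 := Q_le_succ n
    constructor
    · have : (4 * n + 6) * Q (n + 1) ≤ Q (n + 2) := by rw [Q_succ]; omega
      exact_mod_cast this
    · have : Q (n + 2) ≤ (4 * n + 7) * Q (n + 1) := by rw [Q_succ]; nlinarith
      exact_mod_cast this
  have hr : Tendsto (fun n : ℕ => ((n : ℝ) + 1) * Q (n + 1) / Q (n + 2)) atTop (𝓝 (1 / 4)) := by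
    refine tendsto_of_tendsto_of_tendsto_of_le_of_le (h4 7) (h4 6) (fun n => ?_) (fun n => ?_)
    · show ((n : ℝ) + 1) / (4 * n + 7) ≤ ((n : ℝ) + 1) * Q (n + 1) / Q (n + 2)
      rw [div_le_div_iff₀ (by positivity) (Q_pos' _)]
      have := mul_le_mul_of_nonneg_left (hb n).2 (by positivity : (0 : ℝ) ≤ (n : ℝ) + 1)
      linarith
    · show ((n : ℝ) + 1) * Q (n + 1) / Q (n + 2) ≤ ((n : ℝ) + 1) / (4 * n + 6)
      rw [div_le_div_iff₀ (Q_pos' _) (by positivity)]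
      have := mul_le_mul_of_nonneg_left (hb n).1 (by positivity : (0 : ℝ) ≤ (n : ℝ) + 1)
      linarith
  have h6 := hr.mul ((tendsto_add_atTop_iff_nat 1).2 tendsto_Qep)
  have e : (1 : ℝ) / 4 * 2 = 1 / 2 := by norm_num
  rw [e] at h6
  refine h6.congr fun n => ?_
  have hq := (Q_pos' (n + 2)).ne'
  rw [show n + 1 + 1 = n + 2 from rfl]
  push_cast
  field_simp

/-! ### classification of the good approximations -/

theorem classify {A B : ℤ} (hA : A ≠ 0) (h : |(A : ℝ)| * |A * Real.exp 1 - B| < 1 / 8) :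
    ∃ n : ℕ, ∃ m : ℤ, A = m * Q n ∧ B = m * P n ∧ 4 * |(A : ℝ)| < Q (n + 1) := by
  have hex : ∃ n : ℕ, 4 * |(A : ℝ)| < Q (n + 1) := by
    obtain ⟨n, hn⟩ := exists_nat_gt (4 * |(A : ℝ)|)
    refine ⟨n, lt_of_lt_of_le hn ?_⟩
    exact_mod_cast (Nat.le_succ n).trans (le_Q (n + 1))
  classical
  set n := Nat.find hex with hn
  have h1 : 4 * |(A : ℝ)| < Q (n + 1) := Nat.find_spec hex
  have hA1 : (1 : ℝ) ≤ |(A : ℝ)| := by
    have : (1 : ℤ) ≤ |A| := Int.one_le_abs hA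
    exact_mod_cast this
  have h2 : (Q n : ℝ) ≤ 4 * |(A : ℝ)| := by
    rcases Nat.eq_zero_or_pos n with h0 | h0
    · rw [h0]
      simp only [Q, Nat.cast_one]
      linarith
    · have := Nat.find_min hex (m := n - 1) (by omega)
      rw [not_lt, show n - 1 + 1 = n by omega] at this
      exact this
  have e : ((A * P n - B * Q n : ℤ) : ℝ) =
      Q n * (A * Real.exp 1 - B) - A * ((Q n : ℝ) * Real.exp 1 - P n) := by
    push_cast
    ring
  have h3 : |((A * P n - B * Q n : ℤ) : ℝ)| < 1 := by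
    rw [e]
    have h4 : |(Q n : ℝ) * (A * Real.exp 1 - B)| < 1 / 2 := by
      rw [abs_mul, abs_of_pos (Q_pos' n)]
      have := mul_le_mul_of_nonneg_right h2 (abs_nonneg ((A : ℝ) * Real.exp 1 - B))
      nlinarith
    have h5 : |(A : ℝ) * ((Q n : ℝ) * Real.exp 1 - P n)| < 1 / 2 := by
      rw [abs_mul, abs_Qe]
      have h6 := mul_lt_mul_of_pos_right h1 (ep_pos n)
      have := Q_ep_lt n
      nlinarith
    have := abs_sub (G := ℝ) (Q n * (A * Real.exp 1 - B)) (A * ((Q n : ℝ) * Real.exp 1 - P n))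
    linarith
  have h7 : A * P n - B * Q n = 0 := by
    have : |A * P n - B * Q n| < 1 := by exact_mod_cast h3
    exact Int.abs_lt_one_iff.1 this
  have h8 : (Q n : ℤ) ∣ A := by
    have h9 : (Q n : ℤ) ∣ A * P n := ⟨B, by linarith⟩
    exact (coprime n).symm.dvd_of_dvd_mul_right h9
  obtain ⟨m, hm⟩ := h8
  refine ⟨n, m, by rw [hm]; ring, ?_, h1⟩
  have hq : (Q n : ℤ) ≠ 0 := by
    have := Q_pos n
    exact_mod_cast this.ne'
  apply mul_right_cancel₀ hq
  rw [hm] at h7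
  linarith

end Pool.Agent.Helper44.PE
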