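import Pool.Agent.Helper44.PE.Main

/-!
# The limit points for the numbers `(u e + v) / w`
-/

set_option autoImplicit false

open Filter Topology
open Pool.Agent.Helper65.PE

namespace Pool.Agent.Helper44.PE

/-- the multipliers that are admissible infinitely often -/
def Mset (u v : ℤ) (w : ℕ) : Set ℕ := {m | 1 ≤ m ∧ ∃ᶠ n in atTop, Adm u v w m n}

theorem adm_mul {u v : ℤ} {w m n : ℕ} (k : ℕ) (h : Adm u v w m n) : Adm u v w (k * m) n := by
  obtain ⟨q, N, h1, h2⟩ := h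
  refine ⟨k * q, k * N, ?_, ?_⟩
  · rw [show u.natAbs * (k * q) = k * (u.natAbs * q) by ring, h1]
    ring
  · push_cast
    linear_combination (k : ℤ) * h2

theorem mem_Mset_mul {u v : ℤ} {w : ℕ} (hu : u ≠ 0) (hw : 0 < w) {k : ℕ} (hk : 1 ≤ k) :
    k * (u.natAbs * w) ∈ Mset u v w :=
  ⟨Nat.mul_pos hk (Nat.mul_pos (Int.natAbs_pos.2 hu) hw),
    Frequently.of_forall fun n => adm_mul k (adm_all u v w n)⟩

/-- the bounded values come from Hermite's approximations -/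
theorem order_cases {a : ℝ} {u v : ℤ} {w : ℕ} (hu : u ≠ 0) (hw : 0 < w)
    (h : (w : ℝ) * a = u * Real.exp 1 + v) (L : ℝ) (n1 : ℕ) :
    ∀ᶠ q : ℕ in atTop, order a q ≤ L → ∃ k n : ℕ, n1 ≤ n ∧ 1 ≤ k ∧ Adm u v w k n ∧
      (q : ℝ) = k * (u.natAbs : ℝ)⁻¹ * Q n ∧
      order a q = (k : ℝ) ^ 2 / (u.natAbs * w) * (Q n * ep n * ph q) := by
  have hU : 0 < u.natAbs := Int.natAbs_pos.2 hu
  have hU' : (0 : ℝ) < (u.natAbs : ℝ) := by exact_mod_cast hU
  have hw' : (0 : ℝ) < w := by exact_mod_cast hw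
  have hE1 : ∀ᶠ q : ℕ in atTop, L * (8 * (u.natAbs * w)) < ph q :=
    (tendsto_ph.comp tendsto_natCast_atTop_atTop).eventually_gt_atTop _
  filter_upwards [hE1, eventually_ge_atTop (Q n1), eventually_ge_atTop 16] with q hq1 hq2 hq3 hqL
  have hq3' : (16 : ℝ) ≤ q := by exact_mod_cast hq3
  have hq0 : (0 : ℝ) < q := by linarith
  have hphq := ph_pos hq3'
  set N : ℤ := round ((q : ℝ) * a) with hN
  set A : ℤ := u * q with hA
  set B : ℤ := w * N - v * q with hB
  have hA0 : A ≠ 0 := by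
    rw [hA]
    exact mul_ne_zero hu (by exact_mod_cast (by omega : q ≠ 0))
  have e1 : (A : ℝ) * Real.exp 1 - B = w * (q * a - N) := by
    rw [hA, hB]
    push_cast
    linear_combination (-(q : ℝ)) * h
  have e2 : |(A : ℝ)| = u.natAbs * q := by
    rw [hA]
    push_cast
    rw [abs_mul, abs_of_pos hq0, Nat.cast_natAbs, Int.cast_abs]
  have e3 : |(A : ℝ)| * |(A : ℝ) * Real.exp 1 - B| = (u.natAbs * w) * (q * |(q : ℝ) * a - N|) := by
    rw [e1, e2, abs_mul, abs_of_pos hw']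
    ring
  have e4 : order a q = ph q * (q * |(q : ℝ) * a - N|) := by
    unfold order ph
    ring
  have hsmall : |(A : ℝ)| * |(A : ℝ) * Real.exp 1 - B| < 1 / 8 := by
    by_contra hbig
    rw [not_lt, e3] at hbig
    have h5 : 1 / (8 * (u.natAbs * w)) ≤ q * |(q : ℝ) * a - N| := by
      rw [div_le_iff₀ (by positivity)]
      linarith
    have h6 : L < ph q * (1 / (8 * (u.natAbs * w))) := by
      rw [mul_one_div, lt_div_iff₀ (by positivity)]
      exact hq1
    have h7 := mul_le_mul_of_nonneg_left h5 hphq.le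
    linarith
  obtain ⟨n, k, hAk, hBk, hAn⟩ := classify hA0 hsmall
  have hn : n1 ≤ n := by
    by_contra hlt
    rw [not_le] at hlt
    have h8 : Q (n + 1) ≤ Q n1 := Q_mono (by omega)
    have h9 : (Q (n + 1) : ℝ) ≤ q := by exact_mod_cast h8.trans hq2
    have h10 : (1 : ℝ) ≤ u.natAbs := by exact_mod_cast hU
    rw [e2] at hAn
    nlinarith
  have hk0 : k ≠ 0 := by
    intro hk
    rw [hk, zero_mul] at hAk
    exact hA0 hAk
  have hQn : (0 : ℤ) < Q n := by exact_mod_cast Q_pos n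
  have hqz : (0 : ℤ) < q := by exact_mod_cast (by omega : 0 < q)
  have hsgn : k.sign = u.sign := by
    have h11 : (k * Q n).sign = (u * q).sign := by rw [← hAk, hA]
    rw [Int.sign_mul, Int.sign_mul, Int.sign_eq_one_of_pos hQn, Int.sign_eq_one_of_pos hqz, mul_one,
      mul_one] at h11
    exact h11
  have hk1 : 1 ≤ k.natAbs := Int.natAbs_pos.2 hk0
  have ha1 : u.natAbs * q = k.natAbs * Q n := by
    have h12 : (u * q).natAbs = (k * Q n).natAbs := by rw [← hAk, hA]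
    rwa [Int.natAbs_mul, Int.natAbs_mul, Int.natAbs_natCast, Int.natAbs_natCast] at h12
  have ha2 : (w : ℤ) * N = v * q + u.sign * k.natAbs * P n := by
    rw [← hsgn, Int.sign_mul_natAbs, ← hBk, hB]
    ring
  have ha1' : (u.natAbs : ℝ) * q = k.natAbs * Q n := by exact_mod_cast ha1
  have e5 : (q : ℝ) = k.natAbs * (u.natAbs : ℝ)⁻¹ * Q n := by
    field_simp
    linarith
  refine ⟨k.natAbs, n, hn, hk1, ⟨q, N, ha1, ha2⟩, e5, ?_⟩
  rw [e4, adm_dist hu hw h ha1 ha2]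
  have e6 : (q : ℝ) * (k.natAbs * ep n / w) =
      (k.natAbs : ℝ) ^ 2 / (u.natAbs * w) * (Q n * ep n) := by
    rw [e5]
    field_simp
  rw [e6]
  ring

/-- the values along one multiplier -/
theorem tendsto_mult {u : ℤ} {w : ℕ} (hu : u ≠ 0) {k : ℕ} (hk : 1 ≤ k) :
    Tendsto (fun n : ℕ => (k : ℝ) ^ 2 / (u.natAbs * w) *
      (Q n * ep n * ph ((k : ℝ) * (u.natAbs : ℝ)⁻¹ * Q n))) atTop
      (𝓝 ((k : ℝ) ^ 2 / (2 * (u.natAbs * w)))) := by
  have hU' : (0 : ℝ) < (u.natAbs : ℝ) := by exact_mod_cast Int.natAbs_pos.2 hu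
  have hc : (0 : ℝ) < (k : ℝ) * (u.natAbs : ℝ)⁻¹ :=
    mul_pos (by exact_mod_cast hk) (inv_pos.2 hU')
  have ht := (tendsto_key hc).const_mul ((k : ℝ) ^ 2 / (u.natAbs * w))
  have e0 : (k : ℝ) ^ 2 / (u.natAbs * w) * (1 / 2) = (k : ℝ) ^ 2 / (2 * (u.natAbs * w)) := by
    rw [div_mul_div_comm, mul_one, mul_comm (2 : ℝ)]
  rw [e0] at ht
  exact ht

/-- bounded values are close to the values `k ^ 2 / (2 |u| w)` -/
theorem order_near {a : ℝ} {u v : ℤ} {w : ℕ} (hu : u ≠ 0) (hw : 0 < w)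
    (h : (w : ℝ) * a = u * Real.exp 1 + v) (L : ℝ) :
    ∃ K : ℕ, ∀ δ : ℝ, 0 < δ → ∀ᶠ q : ℕ in atTop, order a q ≤ L →
      ∃ k ∈ Mset u v w, k ≤ K ∧ |order a q - (k : ℝ) ^ 2 / (2 * (u.natAbs * w))| < δ := by
  have hU : 0 < u.natAbs := Int.natAbs_pos.2 hu
  have hU' : (0 : ℝ) < (u.natAbs : ℝ) := by exact_mod_cast hU
  have hw' : (0 : ℝ) < w := by exact_mod_cast hw
  have hUw : (0 : ℝ) < (u.natAbs : ℝ) * w := mul_pos hU' hw'
  obtain ⟨K, hK⟩ := exists_nat_ge (4 * (u.natAbs * w) * L)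
  refine ⟨K, fun δ hδ => ?_⟩
  have hQ : Tendsto (fun n : ℕ => (u.natAbs : ℝ)⁻¹ * (Q n : ℝ)) atTop atTop := by
    refine Tendsto.const_mul_atTop (inv_pos.2 hU') ?_
    exact tendsto_natCast_atTop_atTop.comp (tendsto_atTop_mono le_Q tendsto_id)
  have hev1 : ∀ᶠ n : ℕ in atTop, ∀ k ∈ Finset.range (K + 1), 1 ≤ k →
      (k ∉ Mset u v w → ¬ Adm u v w k n) ∧
      |(k : ℝ) ^ 2 / (u.natAbs * w) * (Q n * ep n * ph ((k : ℝ) * (u.natAbs : ℝ)⁻¹ * Q n)) -
        (k : ℝ) ^ 2 / (2 * (u.natAbs * w))| < δ := by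
    rw [Filter.eventually_all_finset]
    intro k _
    by_cases hk1 : 1 ≤ k
    · have h1 : ∀ᶠ n : ℕ in atTop, k ∉ Mset u v w → ¬ Adm u v w k n := by
        by_cases hM : k ∈ Mset u v w
        · exact Eventually.of_forall fun n hn => absurd hM hn
        · have h3 : ¬ ∃ᶠ n in atTop, Adm u v w k n := fun hf => hM ⟨hk1, hf⟩
          rw [not_frequently] at h3
          filter_upwards [h3] with n hn _
          exact hn
      have h2 := (Metric.tendsto_nhds.1 (tendsto_mult (w := w) hu hk1)) δ hδ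
      filter_upwards [h1, h2] with n hn1 hn2 _
      exact ⟨hn1, by rwa [Real.dist_eq] at hn2⟩
    · exact Eventually.of_forall fun n hk2 => absurd hk2 hk1
  have hev2 : ∀ᶠ n : ℕ in atTop, (1 : ℝ) / 4 < Q n * ep n * ph ((u.natAbs : ℝ)⁻¹ * Q n) :=
    (tendsto_key (inv_pos.2 hU')).eventually (lt_mem_nhds (by norm_num))
  obtain ⟨n1, hn1⟩ := eventually_atTop.1 (hev1.and (hev2.and (hQ.eventually_ge_atTop 16)))
  filter_upwards [order_cases hu hw h L n1] with q hq hqL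
  obtain ⟨k, n, hn, hk1, hadm, e5, e6⟩ := hq hqL
  obtain ⟨ha, hb, hc⟩ := hn1 n hn
  have hk1' : (1 : ℝ) ≤ k := by exact_mod_cast hk1
  have hQe : 0 < (Q n : ℝ) * ep n := mul_pos (Q_pos' n) (ep_pos n)
  have h13 : (u.natAbs : ℝ)⁻¹ * Q n ≤ q := by
    rw [e5, mul_assoc]
    have : (0 : ℝ) ≤ (u.natAbs : ℝ)⁻¹ * Q n := by linarith
    nlinarith
  have h14 := ph_mono hc h13
  have h17 : (1 : ℝ) / 4 < Q n * ep n * ph q := hb.trans_le (mul_le_mul_of_nonneg_left h14 hQe.le)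
  have hkK : k ≤ K := by
    have h18 : (k : ℝ) ^ 2 / (u.natAbs * w) * (1 / 4) ≤ L := by
      refine le_trans ?_ hqL
      rw [e6]
      exact mul_le_mul_of_nonneg_left h17.le (by positivity)
    have h19 : (k : ℝ) ^ 2 ≤ 4 * (u.natAbs * w) * L := by
      rw [div_mul_eq_mul_div, div_le_iff₀ hUw] at h18
      linarith
    have h20 : (k : ℝ) ≤ K := by nlinarith
    exact_mod_cast h20
  obtain ⟨hM, hd⟩ := ha k (Finset.mem_range.2 (by omega)) hk1
  refine ⟨k, by_contra fun hnot => hM hnot hadm, hkK, ?_⟩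
  rw [e6, e5]
  exact hd

/-- each multiplier gives a limit point -/
theorem cluster_of_mem {a : ℝ} {u v : ℤ} {w : ℕ} (hu : u ≠ 0) (hw : 0 < w)
    (h : (w : ℝ) * a = u * Real.exp 1 + v) {k : ℕ} (hk : k ∈ Mset u v w) :
    MapClusterPt ((k : ℝ) ^ 2 / (2 * (u.natAbs * w))) atTop (order a) := by
  have hU : 0 < u.natAbs := Int.natAbs_pos.2 hu
  have hU' : (0 : ℝ) < (u.natAbs : ℝ) := by exact_mod_cast hU
  have hw' : (0 : ℝ) < w := by exact_mod_cast hw
  obtain ⟨hk1, hf⟩ := hk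
  rw [mapClusterPt_iff_frequently]
  intro s hs
  rw [frequently_atTop]
  intro K
  have hep : Tendsto (fun n : ℕ => (k : ℝ) * ep n / w) atTop (𝓝 0) := by
    have h1 : Tendsto ep atTop (𝓝 0) := by
      refine squeeze_zero (fun n => (ep_pos n).le) (fun n => ?_) tendsto_J_zero
      unfold ep
      refine div_le_self (J_pos n).le ?_
      exact_mod_cast Nat.factorial_pos n
    have := (h1.const_mul (k : ℝ)).div_const (w : ℝ)
    simpa using this
  have hev := ((tendsto_mult (w := w) hu hk1).eventually_mem hs).and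
    ((hep.eventually (gt_mem_nhds (by norm_num : (0 : ℝ) < 1 / 2))).and
      (eventually_ge_atTop (u.natAbs * (K + 16))))
  obtain ⟨n, ⟨q, N, ha1, ha2⟩, hn1, hn3, hn2⟩ := (hf.and_eventually hev).exists
  have ha1' : (u.natAbs : ℝ) * q = k * Q n := by exact_mod_cast ha1
  have hq : K + 16 ≤ q := by
    have h1 : u.natAbs * (K + 16) ≤ u.natAbs * q := by
      rw [ha1]
      calc u.natAbs * (K + 16) ≤ n := hn2
        _ ≤ Q n := le_Q n
        _ ≤ k * Q n := Nat.le_mul_of_pos_left _ hk1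
    exact Nat.le_of_mul_le_mul_left h1 hU
  refine ⟨q, by omega, ?_⟩
  have e5 : (q : ℝ) = k * (u.natAbs : ℝ)⁻¹ * Q n := by
    field_simp
    linarith
  have hd := adm_dist hu hw h ha1 ha2
  have hr : round ((q : ℝ) * a) = N := by
    rw [round_eq, Int.floor_eq_iff]
    have h3 : |(q : ℝ) * a - N| < 1 / 2 := by
      rw [hd]
      exact hn3
    rw [abs_lt] at h3
    constructor <;> linarith [h3.1, h3.2]
  have e4 : order a q = (k : ℝ) ^ 2 / (u.natAbs * w) *
      (Q n * ep n * ph ((k : ℝ) * (u.natAbs : ℝ)⁻¹ * Q n)) := by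
    have e7 : order a q = ph q * (q * |(q : ℝ) * a - N|) := by
      unfold order ph
      rw [hr]
      ring
    have e6 : (q : ℝ) * (k * ep n / w) = (k : ℝ) ^ 2 / (u.natAbs * w) * (Q n * ep n) := by
      rw [e5]
      field_simp
    rw [e7, hd, e6, ← e5]
    ring
  rw [e4]
  exact hn1

/-- **the finite limit points** -/
theorem cluster_iff {a : ℝ} {u v : ℤ} {w : ℕ} (hu : u ≠ 0) (hw : 0 < w)
    (h : (w : ℝ) * a = u * Real.exp 1 + v) (l : ℝ) :
    MapClusterPt l atTop (order a) ↔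
      ∃ k ∈ Mset u v w, l = (k : ℝ) ^ 2 / (2 * (u.natAbs * w)) := by
  constructor
  · intro hl
    by_contra hcon
    push Not at hcon
    obtain ⟨K, hK⟩ := order_near hu hw h (l + 1)
    -- a positive distance from finitely many values
    obtain ⟨δ, hδ, hδ1, hδ2⟩ : ∃ δ : ℝ, 0 < δ ∧ δ ≤ 1 ∧ ∀ k ∈ Finset.range (K + 1), k ∈ Mset u v w →
        2 * δ ≤ |l - (k : ℝ) ^ 2 / (2 * (u.natAbs * w))| := by
      have h1 : ∀ᶠ δ : ℝ in 𝓝[>] 0, ∀ k ∈ Finset.range (K + 1), k ∈ Mset u v w →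
          2 * δ ≤ |l - (k : ℝ) ^ 2 / (2 * (u.natAbs * w))| := by
        rw [Filter.eventually_all_finset]
        intro k _
        by_cases hk : k ∈ Mset u v w
        · have h2 : 0 < |l - (k : ℝ) ^ 2 / (2 * (u.natAbs * w))| :=
            abs_pos.2 (sub_ne_zero.2 (hcon k hk))
          have h3 : Tendsto (fun δ : ℝ => 2 * δ) (𝓝[>] 0) (𝓝 0) := by
            have : Tendsto (fun δ : ℝ => 2 * δ) (𝓝 0) (𝓝 (2 * 0)) := (continuous_const.mul continuous_id).tendsto 0
            rw [mul_zero] at this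
            exact this.mono_left nhdsWithin_le_nhds
          filter_upwards [h3.eventually (gt_mem_nhds h2)] with δ hd _
          exact hd.le
        · exact Eventually.of_forall fun δ hk2 => absurd hk2 hk
      have h4 : ∀ᶠ δ : ℝ in 𝓝[>] 0, δ ≤ 1 :=
        (eventually_nhdsWithin_of_eventually_nhds (eventually_le_nhds zero_lt_one))
      obtain ⟨δ, ha, hb, hc⟩ := (h1.and (h4.and self_mem_nhdsWithin)).exists
      exact ⟨δ, hc, hb, ha⟩
    have hf := (mapClusterPt_iff_frequently.1 hl) (Metric.ball l δ) (Metric.ball_mem_nhds l hδ)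
    obtain ⟨q, hq1, hq2⟩ := (hf.and_eventually (hK δ hδ)).exists
    rw [Metric.mem_ball, Real.dist_eq] at hq1
    have hq3 : order a q ≤ l + 1 := by
      have := (abs_lt.1 hq1).2
      linarith
    obtain ⟨k, hk, hkK, hk2⟩ := hq2 hq3
    have h5 := hδ2 k (Finset.mem_range.2 (by omega)) hk
    have h6 : |l - (k : ℝ) ^ 2 / (2 * (u.natAbs * w))| ≤
        |order a q - l| + |order a q - (k : ℝ) ^ 2 / (2 * (u.natAbs * w))| := by
      rw [abs_sub_comm (order a q) l]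
      have := abs_add_le (l - order a q) (order a q - (k : ℝ) ^ 2 / (2 * (u.natAbs * w)))
      rwa [sub_add_sub_cancel] at this
    linarith
  · rintro ⟨k, hk, rfl⟩
    exact cluster_of_mem hu hw h hk

end Pool.Agent.Helper44.PE
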